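import Pool.Agent.W618.PC.Final

/-!
# Every Peano continuum is a topological IFS-attractor
-/

open Set Topology

namespace Pool.Agent.Results.MP_e1c365_gt.PeanoContinua

/-- Every Peano continuum `X` (nonempty, compact, connected, locally connected, metrizable), of
finite or infinite dimension, is a topological IFS-attractor: there is a finite set `F` of
continuous self-maps whose images cover `X` such that for every open cover `𝒰` there is `m` such
that the image of every composition of `m` members of `F` lies in a single member of `𝒰`. -/
theorem result : ∀ (X : Type) [TopologicalSpace X] [Nonempty X] [CompactSpace X]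
    [ConnectedSpace X] [LocallyConnectedSpace X] [TopologicalSpace.MetrizableSpace X],
    ∃ F : Set (X → X), F.Finite ∧ (∀ f ∈ F, Continuous f) ∧
      (⋃ f ∈ F, Set.range f) = Set.univ ∧
      ∀ 𝒰 : Set (Set X), (∀ U ∈ 𝒰, IsOpen U) → ⋃₀ 𝒰 = Set.univ →
        ∃ m : ℕ, ∀ l : List (X → X), l.length = m → (∀ f ∈ l, f ∈ F) →
          ∃ U ∈ 𝒰, Set.range (l.foldr (fun f g => f ∘ g) id) ⊆ U := by
  intro X _ _ _ _ _ _
  exact (Pool.Agent.W618.PC.attractor X).2

end Pool.Agent.Results.MP_e1c365_gt.PeanoContinua
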